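import Pool.Agent.Helper76.CQ.Defs

/-!
# Project CQ, piece 6b: the characteristic polynomial of an endomorphism with image in `T`
-/

namespace Pool.Agent.Helper12.CQ

open Polynomial

private lemma aeval_restrict {K V : Type*} [Field K] [AddCommGroup V] [Module K V]
    (C : V →ₗ[K] V) (T : Submodule K V) (D : T →ₗ[K] T) (hD : ∀ x : T, ((D x : T) : V) = C x)
    (p : Polynomial K) (x : T) : ((aeval D p x : T) : V) = aeval C p (x : V) := by
  have hpow : ∀ (n : ℕ) (x : T), (((D ^ n) x : T) : V) = (C ^ n) (x : V) := by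
    intro n
    induction n with
    | zero => intro x; simp
    | succ n ih =>
      intro x
      rw [pow_succ, pow_succ, Module.End.mul_apply, Module.End.mul_apply, ih, hD]
  induction p using Polynomial.induction_on' with
  | add p q hp hq =>
    rw [map_add, map_add, LinearMap.add_apply, LinearMap.add_apply, Submodule.coe_add, hp, hq]
  | monomial n a =>
    rw [aeval_monomial, aeval_monomial, Module.algebraMap_end_eq_smul_id,
      Module.algebraMap_end_eq_smul_id]
    simp only [Module.End.mul_apply, LinearMap.smul_apply, LinearMap.id_coe, id_eq,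
      Submodule.coe_smul, hpow]

theorem charpoly_split {K V : Type*} [Field K] [AddCommGroup V] [Module K V]
    [FiniteDimensional K V] (C : V →ₗ[K] V) (T : Submodule K V) (hC : ∀ v, C v ∈ T)
    (hT : Module.finrank K T = 11) (hV : Module.finrank K V = 21) :
    ∃ χ : Polynomial K, χ.Monic ∧ χ.natDegree = 11 ∧ C.charpoly = Polynomial.X ^ 10 * χ ∧
      (∀ τ ∈ T, Polynomial.aeval C χ τ = 0) ∧
      (χ.coeff 0 = 0 → ∃ τ ∈ T, τ ≠ 0 ∧ C τ = 0) := by
  classical
  let A : V →ₗ[K] T := C.codRestrict T hC
  let B : T →ₗ[K] V := T.subtype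
  let D : T →ₗ[K] T := A ∘ₗ B
  have hBA : B ∘ₗ A = C := by ext v; rfl
  have hD : ∀ x : T, ((D x : T) : V) = C x := fun x => rfl
  let bV := Module.finBasis K V
  let bT := Module.finBasis K T
  refine ⟨D.charpoly, D.charpoly_monic, ?_, ?_, ?_, ?_⟩
  · rw [D.charpoly_natDegree, hT]
  · have h := Matrix.charpoly_mul_comm_of_le (LinearMap.toMatrix bT bV B)
      (LinearMap.toMatrix bV bT A) (by simp [hT, hV])
    rw [← LinearMap.toMatrix_comp bV bT bV, ← LinearMap.toMatrix_comp bT bV bT,
      LinearMap.charpoly_toMatrix, LinearMap.charpoly_toMatrix, hBA] at h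
    simpa [hT, hV] using h
  · intro τ hτ
    rw [← aeval_restrict C T D hD D.charpoly ⟨τ, hτ⟩, D.aeval_self_charpoly]
    rfl
  · intro h0
    have hdet : LinearMap.det D = 0 := by
      rw [LinearMap.det_eq_sign_charpoly_coeff, h0, mul_zero]
    have hker : LinearMap.ker D ≠ ⊥ := (LinearMap.bot_lt_ker_of_det_eq_zero hdet).ne'
    obtain ⟨x, hx, hx0⟩ := Submodule.exists_mem_ne_zero_of_ne_bot hker
    refine ⟨x, x.2, by simpa using hx0, ?_⟩
    rw [← hD x, LinearMap.mem_ker.mp hx]
    rfl

end Pool.Agent.Helper12.CQ
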